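import Mathlib
import Pool.Agent.R34.K34Main

/-!
There is a (theta, prism)-free graph with `K_{3,4}` as an induced minor: an explicit graph on 15
vertices, `Pool.Agent.R34.K34.G15`.
-/

set_option autoImplicit false

namespace Pool.Agent.Results.MP_77ae25_co.ThetaPrismFree

open SimpleGraph
open Pool.Agent.R34.K34

/-- the branch sets of the `K_{3,4}` induced minor -/
def part (v : Fin 15) : Fin 3 ⊕ Fin 4 :=
  match v.val with
  | 0 => Sum.inl 0
  | 1 => Sum.inl 1
  | 2 => Sum.inl 1
  | 3 => Sum.inl 1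
  | 4 => Sum.inl 2
  | 5 => Sum.inl 2
  | 6 => Sum.inl 2
  | 7 => Sum.inr 0
  | 8 => Sum.inr 1
  | 9 => Sum.inr 1
  | 10 => Sum.inr 2
  | 11 => Sum.inr 2
  | _ => Sum.inr 3

/-- the centres of the branch sets -/
def centre (x : Fin 3 ⊕ Fin 4) : Fin 15 :=
  match x with
  | Sum.inl 0 => 0
  | Sum.inl 1 => 1
  | Sum.inl 2 => 4
  | Sum.inr 0 => 7
  | Sum.inr 1 => 8
  | Sum.inr 2 => 10
  | Sum.inr 3 => 13

lemma part_centre : ∀ x, part (centre x) = x := by decide

lemma centre_adj : ∀ v : Fin 15, v = centre (part v) ∨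
    (msk (centre (part v)).val).testBit v.val = true := by decide

lemma part_adj : ∀ x y : Fin 3 ⊕ Fin 4, x ≠ y →
    (((x.isLeft = true ∧ y.isRight = true) ∨ (x.isRight = true ∧ y.isLeft = true)) ↔
      ∃ u : Fin 15, part u = x ∧ ∃ v : Fin 15, part v = y ∧ (msk u.val).testBit v.val = true) := by
  decide +kernel

theorem result : ∃ G : SimpleGraph (Fin 15), ThetaPrismFree G ∧
    IsInducedMinor (completeBipartiteGraph (Fin 3) (Fin 4)) G := by
  refine ⟨G15, fun S => ⟨no_theta S, no_prism S⟩, fun x => {v | part v = x}, ?_, ?_, ?_⟩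
  · intro x
    rw [connected_iff_exists_forall_reachable]
    refine ⟨⟨centre x, part_centre x⟩, ?_⟩
    rintro ⟨v, rfl⟩
    rcases centre_adj v with h | h
    · have h1 : (⟨centre (part v), part_centre (part v)⟩ : {w | part w = part v}) = ⟨v, rfl⟩ :=
        Subtype.ext h.symm
      rw [h1]
    · apply Adj.reachable
      exact h
  · intro x y hxy
    rw [Set.disjoint_left]
    rintro v rfl h
    exact hxy h
  · intro x y hxy
    rw [completeBipartiteGraph_adj]
    exact part_adj x y hxy

end Pool.Agent.Results.MP_77ae25_co.ThetaPrismFree
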